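import Pool.Agent.Work.MP_50f8f6_al.All

/-!
# Frobenius groups of prime exponent

For every sufficiently large prime `p` there is a countable group of exponent `p` which is a
Frobenius group, with complement of order `p`, and in which the centralizer of every nontrivial
element is the cyclic group generated by this element.
-/

set_option autoImplicit false

open scoped Pointwise

namespace Pool.Agent.Results.MP_50f8f6_al.PrimeExponent

/-- The conjugate `H ^ g = g⁻¹ H g` of the subgroup `H`. -/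
def conjBy {G : Type} [Group G] (H : Subgroup G) (g : G) : Subgroup G :=
  H.map (MulAut.conj g⁻¹).toMonoidHom

/-- `G` is the semidirect product `F ⋊ H` of the nontrivial subgroups `F` and `H`, and it is a
Frobenius group with kernel `F` and complement `H`. -/
structure IsFrobenius {G : Type} [Group G] (F H : Subgroup G) : Prop where
  /-- `F` is normal in `G` -/
  normal : F.Normal
  /-- `G = F H` -/
  mul_eq : (F : Set G) * (H : Set G) = Set.univ
  /-- `F ∩ H = 1` -/
  inf_eq : F ⊓ H = ⊥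
  /-- `F ≠ 1` -/
  kernel_ne : F ≠ ⊥
  /-- `H ≠ 1` -/
  complement_ne : H ≠ ⊥
  /-- `H ∩ H ^ g = 1` for every `g ∈ G ∖ H` -/
  inf_conj : ∀ g : G, g ∉ H → H ⊓ conjBy H g = ⊥
  /-- `F ∖ {1} = G ∖ ⋃_g H ^ g` -/
  kernel_eq : (F : Set G) \ {1} = Set.univ \ ⋃ g : G, (conjBy H g : Set G)

theorem mem_conjBy {G : Type} [Group G] {H : Subgroup G} {g x : G} :
    x ∈ conjBy H g ↔ g * x * g⁻¹ ∈ H := by
  unfold conjBy
  rw [Subgroup.mem_map]
  constructor
  · rintro ⟨y, hy, rfl⟩
    have : g * ((MulAut.conj g⁻¹).toMonoidHom y) * g⁻¹ = y := by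
      simp [mul_assoc]
    rw [this]
    exact hy
  · intro h
    refine ⟨_, h, ?_⟩
    simp [mul_assoc]

/-- raw form, for a group of the family `KGrp`. -/
theorem raw {p : ℕ} (hp : p.Prime) (X : FrobP.KGrp p) {c : X.G} (hc : X.r c = 1) (hc1 : c ≠ 1)
    (hconj : ∀ g : X.G, X.r g = Multiplicative.ofAdd 1 → ∃ u : X.G, u * g * u⁻¹ = X.h) :
      X.r.ker.Normal ∧ X.r.ker ⊓ Subgroup.zpowers X.h = ⊥ ∧
      (∀ x : X.G, ∃ f ∈ X.r.ker, ∃ h ∈ Subgroup.zpowers X.h, f * h = x) ∧
      X.r.ker ≠ ⊥ ∧ Subgroup.zpowers X.h ≠ ⊥ ∧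
      (∀ g : X.G, g ∉ Subgroup.zpowers X.h → ∀ x : X.G, x ∈ Subgroup.zpowers X.h →
        g * x * g⁻¹ ∈ Subgroup.zpowers X.h → x = 1) ∧
      (∀ x : X.G, (x ∈ X.r.ker ∧ x ≠ 1) ↔ ∀ g : X.G, g⁻¹ * x * g ∉ Subgroup.zpowers X.h) := by
  have : Fact p.Prime := ⟨hp⟩
  have hrz : ∀ k : ℤ, X.r (X.h ^ k) = Multiplicative.ofAdd (k : ZMod p) := by
    intro k
    rw [map_zpow, X.rh, ← ofAdd_zsmul]
    congr 1
    simp
  have hcommr : ∀ g x : X.G, X.r (g * x * g⁻¹) = X.r x := by
    intro g x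
    rw [map_mul, map_mul, map_inv, mul_comm (X.r g), mul_assoc, mul_inv_cancel, mul_one]
  -- `r` is injective on `H`
  have hinj : ∀ x ∈ Subgroup.zpowers X.h, X.r x = 1 → x = 1 := by
    rintro x ⟨k, rfl⟩ hx
    have hx' : X.r (X.h ^ k) = 1 := hx
    rw [hrz, ← ofAdd_zero] at hx'
    have h0 : (k : ZMod p) = 0 := Multiplicative.ofAdd.injective hx'
    rw [ZMod.intCast_zmod_eq_zero_iff_dvd] at h0
    obtain ⟨m, rfl⟩ := h0
    change X.h ^ ((p : ℤ) * m) = 1
    rw [zpow_mul, zpow_natCast, X.expo, one_zpow]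
  have hinj2 : ∀ x ∈ Subgroup.zpowers X.h, ∀ y ∈ Subgroup.zpowers X.h, X.r x = X.r y → x = y := by
    intro x hx y hy h
    have h1 := hinj (x * y⁻¹) (mul_mem hx (inv_mem hy)) (by rw [map_mul, map_inv, h, mul_inv_cancel])
    exact mul_inv_eq_one.1 h1
  refine ⟨inferInstance, ?_, ?_, ?_, ?_, ?_, ?_⟩
  · rw [eq_bot_iff]
    intro x hx
    rw [Subgroup.mem_inf] at hx
    rw [Subgroup.mem_bot]
    exact hinj x hx.2 hx.1
  · intro x
    obtain ⟨k, hk⟩ : ∃ k : ℤ, X.r x = X.r (X.h ^ k) := by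
      refine ⟨((Multiplicative.toAdd (X.r x)).val : ℤ), ?_⟩
      rw [hrz]
      simp
    refine ⟨x * (X.h ^ k)⁻¹, ?_, X.h ^ k, ⟨k, rfl⟩, inv_mul_cancel_right _ _⟩
    rw [MonoidHom.mem_ker, map_mul, map_inv, hk, mul_inv_cancel]
  · intro h
    apply hc1
    have : c ∈ X.r.ker := hc
    rw [h, Subgroup.mem_bot] at this
    exact this
  · intro h
    have h1 : X.h = 1 := by
      have h2 : X.h ∈ Subgroup.zpowers X.h := Subgroup.mem_zpowers _
      rw [h, Subgroup.mem_bot] at h2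
      exact h2
    have h2 := X.rh
    rw [h1, map_one, ← ofAdd_zero] at h2
    exact zero_ne_one (Multiplicative.ofAdd.injective h2)
  · intro g hg x hx hgx
    by_contra hx1
    apply hg
    have h1 : g * x * g⁻¹ = x := hinj2 _ hgx _ hx (hcommr g x)
    have h2 : x * g = g * x := by
      rw [mul_inv_eq_iff_eq_mul] at h1
      exact h1.symm
    exact (Subgroup.zpowers_le.2 hx) (X.cen x g hx1 h2)
  · intro x
    constructor
    · rintro ⟨hx, hx1⟩ g hg
      apply hx1
      have h1 : X.r (g⁻¹ * x * g) = 1 := by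
        have := hcommr g⁻¹ x
        rw [inv_inv] at this
        rw [this]; exact hx
      have h2 := hinj _ hg h1
      have h3 : g * (g⁻¹ * x * g) * g⁻¹ = x := by group
      rw [← h3, h2, mul_one, mul_inv_cancel]
    · intro h
      have hx1 : x ≠ 1 := by
        rintro rfl
        apply h 1
        rw [mul_one, mul_one, inv_one]
        exact one_mem _
      refine ⟨?_, hx1⟩
      by_contra hx
      rw [MonoidHom.mem_ker] at hx
      set a : ZMod p := Multiplicative.toAdd (X.r x) with ha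
      have ha0 : a ≠ 0 := by
        intro h0
        apply hx
        have : X.r x = Multiplicative.ofAdd a := by rw [ha, ofAdd_toAdd]
        rw [this, h0, ofAdd_zero]
      set k : ℕ := (a⁻¹).val with hk
      have hka : ((k : ℕ) : ZMod p) * a = 1 := by
        rw [hk, ZMod.natCast_zmod_val, inv_mul_cancel₀ ha0]
      have h1 : X.r (x ^ k) = Multiplicative.ofAdd 1 := by
        rw [map_pow]
        have : X.r x = Multiplicative.ofAdd a := by rw [ha, ofAdd_toAdd]
        rw [this, ← ofAdd_nsmul, nsmul_eq_mul, hka]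
      obtain ⟨u, hu⟩ := hconj _ h1
      have h2 : (x ^ k) ^ (a.val) = x := by
        rw [← pow_mul]
        have h3 : k * a.val ≡ 1 [MOD p] := by
          rw [← ZMod.natCast_eq_natCast_iff, Nat.cast_mul, Nat.cast_one, ZMod.natCast_zmod_val a,
            hka]
        have h4 : x ^ (k * a.val) = x ^ 1 := by
          rw [← Nat.mod_add_div (k * a.val) p, pow_add, pow_mul, X.expo, one_pow, mul_one, h3,
            ← pow_eq_pow_mod 1 (X.expo x)]
        rw [h4, pow_one]
      apply h u⁻¹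
      rw [inv_inv]
      refine ⟨(a.val : ℤ), ?_⟩
      change X.h ^ (a.val : ℤ) = u * x * u⁻¹
      rw [zpow_natCast, ← hu, conj_pow, h2]

/-- **Frobenius groups of large prime exponent.** -/
theorem result : ∃ p₀ : ℕ, ∀ p : ℕ, p.Prime → p₀ ≤ p →
    ∃ (G : Type) (_ : Group G) (F H : Subgroup G),
      IsPGroup p G ∧ IsFrobenius F H ∧ Countable G ∧ (∀ g : G, g ^ p = 1) ∧ Nat.card H = p ∧
      ∀ g : G, g ≠ 1 → Subgroup.centralizer {g} = Subgroup.zpowers g := by
  obtain ⟨p₀, h⟩ := FrobP.oneStep FrobP.bbStmt FrobP.hnnTreeStmt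
  refine ⟨p₀, fun p hp hp0 => ?_⟩
  obtain ⟨h1, X, g, hg, hg1⟩ := h p hp hp0
  obtain ⟨Y, ⟨c, hc, hc1⟩, h3⟩ := FrobP.M2.exists_final h1 X g hg hg1
  obtain ⟨r1, r2, r3, r4, r5, r6, r7⟩ := raw hp Y hc hc1 h3
  refine ⟨Y.G, Y.grp, Y.r.ker, Subgroup.zpowers Y.h, fun g => ⟨1, by rw [pow_one, Y.expo]⟩,
    ⟨r1, ?_, r2, r4, r5, ?_, ?_⟩, Y.cnt, Y.expo, ?_, ?_⟩
  · ext x
    simp only [Set.mem_univ, iff_true]
    obtain ⟨f, hf, h, hh, e⟩ := r3 x
    exact Set.mem_mul.2 ⟨f, hf, h, hh, e⟩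
  · intro g hg
    rw [eq_bot_iff]
    intro x hx
    rw [Subgroup.mem_inf, mem_conjBy] at hx
    exact Subgroup.mem_bot.2 (r6 g hg x hx.1 hx.2)
  · ext x
    simp only [Set.mem_diff, Set.mem_singleton_iff, Set.mem_univ, true_and, Set.mem_iUnion,
      SetLike.mem_coe, not_exists, mem_conjBy]
    rw [r7 x]
    constructor
    · intro h g
      have := h g⁻¹
      rwa [inv_inv] at this
    · intro h g
      have := h g⁻¹
      rwa [inv_inv] at this
  · have ho : orderOf Y.h = p := by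
      refine orderOf_eq_prime (hp := ⟨hp⟩) (Y.expo _) ?_
      intro h0
      apply r5
      rw [h0, Subgroup.zpowers_one_eq_bot]
    rw [Nat.card_zpowers, ho]
  · intro g hg
    apply le_antisymm
    · intro x hx
      rw [Subgroup.mem_centralizer_singleton_iff] at hx
      exact Y.cen g x hg hx.symm
    · rw [Subgroup.zpowers_le, Subgroup.mem_centralizer_singleton_iff]

end Pool.Agent.Results.MP_50f8f6_al.PrimeExponent
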